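import Pool.Agent.W2helper1.NW.LI2

/-! Piece LI of project NW: the local inequality for the icosahedron, conclusion. -/

set_option autoImplicit false

namespace Pool.Agent.W2helper1.NW

open Pool.Agent.W2helper59.NW
open scoped goldenRatio

theorem enc_of {A B p q c : ℝ} (h : Opt A B p q c) :
    Enc φ (φ * A + B) (φ * B - A) ((φ - 1) * A + B) (A - (φ - 1) * B) (c * φ) (c * q) (c * p) c
      (c * (φ * p)) (c * (φ * q)) (φ * q) p := by
  have hφ := phi_enc
  obtain ⟨-, -, -, -, -, -, -, -, -, nA, nB, np, nq, nc⟩ := h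
  have gA := abs_le.1 (em3 hφ nA (abs_le.2 ⟨by norm_num, by norm_num⟩)
    (abs_le.2 ⟨by norm_num, by norm_num⟩) (by norm_num))
  have gB := abs_le.1 (em3 hφ nB (abs_le.2 ⟨by norm_num, by norm_num⟩)
    (abs_le.2 ⟨by norm_num, by norm_num⟩) (by norm_num))
  have gcφ := abs_le.1 (em3 nc hφ (abs_le.2 ⟨by norm_num, by norm_num⟩)
    (abs_le.2 ⟨by norm_num, by norm_num⟩) (by norm_num))
  have gcq := abs_le.1 (em3 nc nq (abs_le.2 ⟨by norm_num, by norm_num⟩)
    (abs_le.2 ⟨by norm_num, by norm_num⟩) (by norm_num))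
  have gcp := abs_le.1 (em3 nc np (abs_le.2 ⟨by norm_num, by norm_num⟩)
    (abs_le.2 ⟨by norm_num, by norm_num⟩) (by norm_num))
  have gφq := em3 hφ nq (abs_le.2 ⟨by norm_num, by norm_num⟩)
    (abs_le.2 ⟨by norm_num, by norm_num⟩) (by norm_num)
  have gφp := em3 hφ np (abs_le.2 ⟨by norm_num, by norm_num⟩)
    (abs_le.2 ⟨by norm_num, by norm_num⟩) (by norm_num)
  have gφp' := near (v := 1514852656126 / 10 ^ 12) (t := 1 / 10 ^ 11) gφp (by norm_num) (by norm_num)
  have gφq' := near (v := 568555554873 / 10 ^ 12) (t := 1 / 10 ^ 11) gφq (by norm_num) (by norm_num)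
  have gb2 := abs_le.1 (em3 nc gφp' (abs_le.2 ⟨by norm_num, by norm_num⟩)
    (abs_le.2 ⟨by norm_num, by norm_num⟩) (by norm_num))
  have gb3 := abs_le.1 (em3 nc gφq' (abs_le.2 ⟨by norm_num, by norm_num⟩)
    (abs_le.2 ⟨by norm_num, by norm_num⟩) (by norm_num))
  have gφq2 := abs_le.1 gφq
  have kφ := abs_le.1 hφ
  have kA := abs_le.1 nA
  have kB := abs_le.1 nB
  have kp := abs_le.1 np
  have kc := abs_le.1 nc
  constructor <;> rw [abs_le]
  · constructor <;> linarith only [kφ.1, kφ.2]
  · constructor <;> linarith only [gA.1, gA.2, kB.1, kB.2]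
  · constructor <;> linarith only [gB.1, gB.2, kA.1, kA.2]
  · constructor <;> linarith only [gA.1, gA.2, kA.1, kA.2, kB.1, kB.2]
  · constructor <;> linarith only [gB.1, gB.2, kA.1, kA.2, kB.1, kB.2]
  · constructor <;> linarith only [gcφ.1, gcφ.2]
  · constructor <;> linarith only [gcq.1, gcq.2]
  · constructor <;> linarith only [gcp.1, gcp.2]
  · constructor <;> linarith only [kc.1, kc.2]
  · constructor <;> linarith only [gb2.1, gb2.2]
  · constructor <;> linarith only [gb3.1, gb3.2]
  · constructor <;> linarith only [gφq2.1, gφq2.2]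
  · constructor <;> linarith only [kp.1, kp.2]

/-- **LI** -/
theorem li : LI := by
  intro A B p q c h ξ η α β γ hξ hη hα hβ hγ ⟨g1, g2, g3, g4⟩
  have he := enc_of h
  obtain ⟨hAB, hpq, i1, i2, i3, -, -, -, -, -, -, -, -, -⟩ := h
  rw [expand] at g1 g2 g3 g4
  refine core (ξ := ξ) (η := η) (α := α) (β := β) (γ := γ) he (by ring) hξ hη hα hβ hγ ?_ ?_ ?_ ?_ ?_
  · simp only [Lf]
    linear_combination (-2 * c * φ * (A - (φ - 1) * B) * ξ) * hpq + (2 * φ * ξ) * i3
  · have e : (φ * A + B - c * φ) * φ - (0 - c * q) * -((φ - 1) * A + B) = 0 := by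
      linear_combination i1
    rw [e] at g1
    simp only [mul_neg, zero_add] at g1
    exact g1
  · have e : (φ * A + B - c * 1) * φ - (0 - c * (φ * p)) * -((φ - 1) * A + B) = 0 := by
      linear_combination i2
    rw [e] at g2
    simp only [mul_one, zero_add] at g2
    exact g2
  · have e : (φ * A + B - c * φ) * φ - (0 - c * -q) * ((φ - 1) * A + B) = 0 := by
      linear_combination i1
    rw [e] at g3
    simp only [mul_neg, zero_add] at g3
    exact g3
  · have e : (φ * A + B - c * 1) * φ - (0 - c * -(φ * p)) * ((φ - 1) * A + B) = 0 := by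
      linear_combination i2
    rw [e] at g4
    simp only [mul_neg, mul_one, zero_add] at g4
    exact g4

end Pool.Agent.W2helper1.NW
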