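import Pool.Agent.W2helper59.NW.Stm

/-! Pieces LI and LE of project NW: expansion of `G3` and bounds for the terms of degree two and three. -/

set_option autoImplicit false

namespace Pool.Agent.W2helper1.NW

open Pool.Agent.W2helper59.NW

/-- linear part (`u = c Q`) -/
def Lf (ξ η α β γ P1 P2 P3 D1 D2 D3 u1 u2 u3 : ℝ) : ℝ :=
  ξ * ((P2 - u2) * D3 - (P3 - u3) * D2) + η * ((P3 - u3) * D1 - (P1 - u1) * D3)
    + ((2 * γ * u2 - 2 * β * u3) * D2 - (-2 * γ * u1 + 2 * α * u3) * D1)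

/-- quadratic part -/
def Qf (ξ η α β γ P1 P2 D1 D2 D3 u1 u2 u3 : ℝ) : ℝ :=
  ξ * ((-2 * γ * u1 + 2 * α * u3) * D3 - (2 * β * u1 - 2 * α * u2) * D2)
    + η * ((2 * β * u1 - 2 * α * u2) * D1 - (2 * γ * u2 - 2 * β * u3) * D3)
    + (((α^2 + β^2 + γ^2) * P1 - (α^2 - β^2 - γ^2) * u1 - 2 * α * β * u2 - 2 * α * γ * u3) * D2
      - ((α^2 + β^2 + γ^2) * P2 - 2 * α * β * u1 - (-α^2 + β^2 - γ^2) * u2 - 2 * β * γ * u3) * D1)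

/-- cubic part -/
def Cf (ξ η α β γ P1 P2 P3 D1 D2 D3 u1 u2 u3 : ℝ) : ℝ :=
  ξ * (((α^2 + β^2 + γ^2) * P2 - 2 * α * β * u1 - (-α^2 + β^2 - γ^2) * u2 - 2 * β * γ * u3) * D3
      - ((α^2 + β^2 + γ^2) * P3 - 2 * α * γ * u1 - 2 * β * γ * u2 - (-α^2 - β^2 + γ^2) * u3) * D2)
    + η * (((α^2 + β^2 + γ^2) * P3 - 2 * α * γ * u1 - 2 * β * γ * u2
        - (-α^2 - β^2 + γ^2) * u3) * D1
      - ((α^2 + β^2 + γ^2) * P1 - (α^2 - β^2 - γ^2) * u1 - 2 * α * β * u2 - 2 * α * γ * u3) * D3)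

theorem expand (c ξ η α β γ P1 P2 P3 D1 D2 D3 Q1 Q2 Q3 : ℝ) :
    G3 c ξ η α β γ P1 P2 P3 D1 D2 D3 Q1 Q2 Q3
      = ((P1 - c * Q1) * D2 - (P2 - c * Q2) * D1)
        + Lf ξ η α β γ P1 P2 P3 D1 D2 D3 (c * Q1) (c * Q2) (c * Q3)
        + Qf ξ η α β γ P1 P2 D1 D2 D3 (c * Q1) (c * Q2) (c * Q3)
        + Cf ξ η α β γ P1 P2 P3 D1 D2 D3 (c * Q1) (c * Q2) (c * Q3) := by
  simp only [G3, Lf, Qf, Cf]
  ring

theorem tb {x m X M : ℝ} (hx : |x| ≤ X) (hm : |m| ≤ M) : |x * m| ≤ X * M := by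
  rw [abs_mul]
  exact mul_le_mul hx hm (abs_nonneg _) ((abs_nonneg _).trans hx)

theorem Qbd {ξ η α β γ P1 P2 D1 D2 D3 u1 u2 u3 s : ℝ}
    (hs : s = ξ^2 + η^2 + α^2 + β^2 + γ^2)
    (hP1 : |P1| ≤ 2) (hP2 : |P2| ≤ 2) (hD1 : |D1| ≤ 1) (hD2 : |D2| ≤ 2) (hD3 : |D3| ≤ 1)
    (hu1 : |u1| ≤ 2) (hu2 : |u2| ≤ 2) (hu3 : |u3| ≤ 2) :
    |Qf ξ η α β γ P1 P2 D1 D2 D3 u1 u2 u3| ≤ 44 * s := by
  have m1 : |ξ * γ| ≤ s / 2 := by rw [abs_le]; constructor <;> nlinarith [sq_nonneg (ξ + γ), sq_nonneg (ξ - γ), sq_nonneg η, sq_nonneg α, sq_nonneg β]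
  have m2 : |ξ * α| ≤ s / 2 := by rw [abs_le]; constructor <;> nlinarith [sq_nonneg (ξ + α), sq_nonneg (ξ - α), sq_nonneg η, sq_nonneg γ, sq_nonneg β]
  have m3 : |ξ * β| ≤ s / 2 := by rw [abs_le]; constructor <;> nlinarith [sq_nonneg (ξ + β), sq_nonneg (ξ - β), sq_nonneg η, sq_nonneg γ, sq_nonneg α]
  have m4 : |η * α| ≤ s / 2 := by rw [abs_le]; constructor <;> nlinarith [sq_nonneg (η + α), sq_nonneg (η - α), sq_nonneg ξ, sq_nonneg γ, sq_nonneg β]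
  have m5 : |η * β| ≤ s / 2 := by rw [abs_le]; constructor <;> nlinarith [sq_nonneg (η + β), sq_nonneg (η - β), sq_nonneg ξ, sq_nonneg γ, sq_nonneg α]
  have m6 : |η * γ| ≤ s / 2 := by rw [abs_le]; constructor <;> nlinarith [sq_nonneg (η + γ), sq_nonneg (η - γ), sq_nonneg ξ, sq_nonneg β, sq_nonneg α]
  have m7 : |α * β| ≤ s / 2 := by rw [abs_le]; constructor <;> nlinarith [sq_nonneg (α + β), sq_nonneg (α - β), sq_nonneg ξ, sq_nonneg η, sq_nonneg γ]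
  have m8 : |α * γ| ≤ s / 2 := by rw [abs_le]; constructor <;> nlinarith [sq_nonneg (α + γ), sq_nonneg (α - γ), sq_nonneg ξ, sq_nonneg η, sq_nonneg β]
  have m9 : |β * γ| ≤ s / 2 := by rw [abs_le]; constructor <;> nlinarith [sq_nonneg (β + γ), sq_nonneg (β - γ), sq_nonneg ξ, sq_nonneg η, sq_nonneg α]
  have n1 : |α^2 + β^2 + γ^2| ≤ s := by rw [abs_le]; constructor <;> nlinarith [sq_nonneg ξ, sq_nonneg η, sq_nonneg α, sq_nonneg β, sq_nonneg γ]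
  have n2 : |α^2 - β^2 - γ^2| ≤ s := by rw [abs_le]; constructor <;> nlinarith [sq_nonneg ξ, sq_nonneg η, sq_nonneg α, sq_nonneg β, sq_nonneg γ]
  have n3 : |-α^2 + β^2 - γ^2| ≤ s := by rw [abs_le]; constructor <;> nlinarith [sq_nonneg ξ, sq_nonneg η, sq_nonneg α, sq_nonneg β, sq_nonneg γ]
  have t1 := abs_le.1 (tb (tb hu1 hD3) m1)
  have t2 := abs_le.1 (tb (tb hu3 hD3) m2)
  have t3 := abs_le.1 (tb (tb hu1 hD2) m3)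
  have t4 := abs_le.1 (tb (tb hu2 hD2) m2)
  have t5 := abs_le.1 (tb (tb hu1 hD1) m5)
  have t6 := abs_le.1 (tb (tb hu2 hD1) m4)
  have t7 := abs_le.1 (tb (tb hu2 hD3) m6)
  have t8 := abs_le.1 (tb (tb hu3 hD3) m5)
  have t9 := abs_le.1 (tb (tb hP1 hD2) n1)
  have t10 := abs_le.1 (tb (tb hu1 hD2) n2)
  have t11 := abs_le.1 (tb (tb hu2 hD2) m7)
  have t12 := abs_le.1 (tb (tb hu3 hD2) m8)
  have t13 := abs_le.1 (tb (tb hP2 hD1) n1)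
  have t14 := abs_le.1 (tb (tb hu1 hD1) m7)
  have t15 := abs_le.1 (tb (tb hu2 hD1) n3)
  have t16 := abs_le.1 (tb (tb hu3 hD1) m9)
  have e : Qf ξ η α β γ P1 P2 D1 D2 D3 u1 u2 u3
      = -2 * (u1 * D3 * (ξ * γ)) + 2 * (u3 * D3 * (ξ * α)) - 2 * (u1 * D2 * (ξ * β))
        + 2 * (u2 * D2 * (ξ * α)) + 2 * (u1 * D1 * (η * β)) - 2 * (u2 * D1 * (η * α))
        - 2 * (u2 * D3 * (η * γ)) + 2 * (u3 * D3 * (η * β))
        + P1 * D2 * (α^2 + β^2 + γ^2) - u1 * D2 * (α^2 - β^2 - γ^2)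
        - 2 * (u2 * D2 * (α * β)) - 2 * (u3 * D2 * (α * γ))
        - P2 * D1 * (α^2 + β^2 + γ^2) + 2 * (u1 * D1 * (α * β))
        + u2 * D1 * (-α^2 + β^2 - γ^2) + 2 * (u3 * D1 * (β * γ)) := by
    simp only [Qf]; ring
  rw [e, abs_le]
  constructor <;>
  linarith [t1.1, t1.2, t2.1, t2.2, t3.1, t3.2, t4.1, t4.2, t5.1, t5.2, t6.1, t6.2, t7.1, t7.2,
    t8.1, t8.2, t9.1, t9.2, t10.1, t10.2, t11.1, t11.2, t12.1, t12.2, t13.1, t13.2, t14.1, t14.2,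
    t15.1, t15.2, t16.1, t16.2]

theorem Cbd {ξ η α β γ P1 P2 P3 D1 D2 D3 u1 u2 u3 s δ : ℝ}
    (hs : s = ξ^2 + η^2 + α^2 + β^2 + γ^2) (hξ : |ξ| ≤ δ) (hη : |η| ≤ δ)
    (hP1 : |P1| ≤ 2) (hP2 : |P2| ≤ 2) (hP3 : |P3| ≤ 2)
    (hD1 : |D1| ≤ 1) (hD2 : |D2| ≤ 2) (hD3 : |D3| ≤ 1)
    (hu1 : |u1| ≤ 2) (hu2 : |u2| ≤ 2) (hu3 : |u3| ≤ 2) :
    |Cf ξ η α β γ P1 P2 P3 D1 D2 D3 u1 u2 u3| ≤ 40 * (δ * s) := by
  have m7 : |α * β| ≤ s / 2 := by rw [abs_le]; constructor <;> nlinarith [sq_nonneg (α + β), sq_nonneg (α - β), sq_nonneg ξ, sq_nonneg η, sq_nonneg γ]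
  have m8 : |α * γ| ≤ s / 2 := by rw [abs_le]; constructor <;> nlinarith [sq_nonneg (α + γ), sq_nonneg (α - γ), sq_nonneg ξ, sq_nonneg η, sq_nonneg β]
  have m9 : |β * γ| ≤ s / 2 := by rw [abs_le]; constructor <;> nlinarith [sq_nonneg (β + γ), sq_nonneg (β - γ), sq_nonneg ξ, sq_nonneg η, sq_nonneg α]
  have n1 : |α^2 + β^2 + γ^2| ≤ s := by rw [abs_le]; constructor <;> nlinarith [sq_nonneg ξ, sq_nonneg η, sq_nonneg α, sq_nonneg β, sq_nonneg γ]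
  have n2 : |α^2 - β^2 - γ^2| ≤ s := by rw [abs_le]; constructor <;> nlinarith [sq_nonneg ξ, sq_nonneg η, sq_nonneg α, sq_nonneg β, sq_nonneg γ]
  have n3 : |-α^2 + β^2 - γ^2| ≤ s := by rw [abs_le]; constructor <;> nlinarith [sq_nonneg ξ, sq_nonneg η, sq_nonneg α, sq_nonneg β, sq_nonneg γ]
  have n4 : |-α^2 - β^2 + γ^2| ≤ s := by rw [abs_le]; constructor <;> nlinarith [sq_nonneg ξ, sq_nonneg η, sq_nonneg α, sq_nonneg β, sq_nonneg γ]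
  have t1 := abs_le.1 (tb (tb hP2 hD3) (tb hξ n1))
  have t2 := abs_le.1 (tb (tb hu1 hD3) (tb hξ m7))
  have t3 := abs_le.1 (tb (tb hu2 hD3) (tb hξ n3))
  have t4 := abs_le.1 (tb (tb hu3 hD3) (tb hξ m9))
  have t5 := abs_le.1 (tb (tb hP3 hD2) (tb hξ n1))
  have t6 := abs_le.1 (tb (tb hu1 hD2) (tb hξ m8))
  have t7 := abs_le.1 (tb (tb hu2 hD2) (tb hξ m9))
  have t8 := abs_le.1 (tb (tb hu3 hD2) (tb hξ n4))
  have t9 := abs_le.1 (tb (tb hP3 hD1) (tb hη n1))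
  have t10 := abs_le.1 (tb (tb hu1 hD1) (tb hη m8))
  have t11 := abs_le.1 (tb (tb hu2 hD1) (tb hη m9))
  have t12 := abs_le.1 (tb (tb hu3 hD1) (tb hη n4))
  have t13 := abs_le.1 (tb (tb hP1 hD3) (tb hη n1))
  have t14 := abs_le.1 (tb (tb hu1 hD3) (tb hη n2))
  have t15 := abs_le.1 (tb (tb hu2 hD3) (tb hη m7))
  have t16 := abs_le.1 (tb (tb hu3 hD3) (tb hη m8))
  have e : Cf ξ η α β γ P1 P2 P3 D1 D2 D3 u1 u2 u3
      = P2 * D3 * (ξ * (α^2 + β^2 + γ^2)) - 2 * (u1 * D3 * (ξ * (α * β)))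
        - u2 * D3 * (ξ * (-α^2 + β^2 - γ^2)) - 2 * (u3 * D3 * (ξ * (β * γ)))
        - P3 * D2 * (ξ * (α^2 + β^2 + γ^2)) + 2 * (u1 * D2 * (ξ * (α * γ)))
        + 2 * (u2 * D2 * (ξ * (β * γ))) + u3 * D2 * (ξ * (-α^2 - β^2 + γ^2))
        + P3 * D1 * (η * (α^2 + β^2 + γ^2)) - 2 * (u1 * D1 * (η * (α * γ)))
        - 2 * (u2 * D1 * (η * (β * γ))) - u3 * D1 * (η * (-α^2 - β^2 + γ^2))
        - P1 * D3 * (η * (α^2 + β^2 + γ^2)) + u1 * D3 * (η * (α^2 - β^2 - γ^2))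
        + 2 * (u2 * D3 * (η * (α * β))) + 2 * (u3 * D3 * (η * (α * γ))) := by
    simp only [Cf]; ring
  rw [e, abs_le]
  constructor <;>
  linarith [t1.1, t1.2, t2.1, t2.2, t3.1, t3.2, t4.1, t4.2, t5.1, t5.2, t6.1, t6.2, t7.1, t7.2,
    t8.1, t8.2, t9.1, t9.2, t10.1, t10.2, t11.1, t11.2, t12.1, t12.2, t13.1, t13.2, t14.1, t14.2,
    t15.1, t15.2, t16.1, t16.2]

end Pool.Agent.W2helper1.NW
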