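import Pool.Agent.W2helper1.NW.Gen

/-! Piece LI of project NW: the local inequality for the icosahedron. -/

set_option autoImplicit false

namespace Pool.Agent.W2helper1.NW

open Pool.Agent.W2helper59.NW
open scoped goldenRatio

theorem phi_enc : |φ - 16180339887499 / 10 ^ 13| ≤ 1 / 10 ^ 12 := by
  have h1 : φ ^ 2 = φ + 1 := Real.goldenRatio_sq
  have h2 : 0 < φ := Real.goldenRatio_pos
  rw [abs_le]
  constructor
  · by_contra h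
    push Not at h
    nlinarith
  · by_contra h
    push Not at h
    nlinarith

theorem em {x y a b e f : ℝ} (hx : |x - a| ≤ e) (hy : |y - b| ≤ f) (ha : |a| ≤ 2) (hb : |b| ≤ 2)
    (hf1 : f ≤ 1) : |x * y - a * b| ≤ 3 * e + 2 * f := by
  have he : 0 ≤ e := (abs_nonneg _).trans hx
  have h : x * y - a * b = (x - a) * y + a * (y - b) := by ring
  have hy2 : |y| ≤ 3 := by
    have := abs_add_le (y - b) b
    rw [sub_add_cancel] at this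
    linarith
  calc |x * y - a * b| = |(x - a) * y + a * (y - b)| := by rw [h]
    _ ≤ |(x - a) * y| + |a * (y - b)| := abs_add_le _ _
    _ ≤ e * 3 + 2 * f := add_le_add (tb hx hy2) (tb ha hy)
    _ = 3 * e + 2 * f := by ring

/-- comparison of a linear form with its rational approximation -/
theorem lin_err {r ξ η α β γ K1 K2 K3 K4 K5 l1 l2 l3 l4 l5 : ℝ}
    (hξ : |ξ| ≤ r) (hη : |η| ≤ r) (hα : |α| ≤ r) (hβ : |β| ≤ r) (hγ : |γ| ≤ r)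
    (h1 : |K1 - l1| ≤ 1 / 10 ^ 5) (h2 : |K2 - l2| ≤ 1 / 10 ^ 5) (h3 : |K3 - l3| ≤ 1 / 10 ^ 5)
    (h4 : |K4 - l4| ≤ 1 / 10 ^ 5) (h5 : |K5 - l5| ≤ 1 / 10 ^ 5) :
    |(ξ * K1 + η * K2 + α * K3 + β * K4 + γ * K5)
      - (l1 * ξ + l2 * η + l3 * α + l4 * β + l5 * γ)| ≤ 5 / 10 ^ 5 * r := by
  have t1 := abs_le.1 (tb h1 hξ)
  have t2 := abs_le.1 (tb h2 hη)
  have t3 := abs_le.1 (tb h3 hα)
  have t4 := abs_le.1 (tb h4 hβ)
  have t5 := abs_le.1 (tb h5 hγ)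
  rw [abs_le]
  constructor <;> linarith [t1.1, t1.2, t2.1, t2.2, t3.1, t3.2, t4.1, t4.2, t5.1, t5.2]

/-- a product of a linear form with coefficients at most ten in sum and a small form -/
theorem lL_err {r l L s : ℝ} (hs : r ^ 2 = s) (hl : |l| ≤ 10 * r) (hL : |L - l| ≤ 5 / 10 ^ 5 * r) :
    -(12 * (l * L)) ≤ -(12 * l ^ 2) + 6 / 10 ^ 3 * s := by
  have t := abs_le.1 (tb hl hL)
  nlinarith [t.1, t.2]

/-! CORE -/

theorem em3 {x y a b e f : ℝ} (hx : |x - a| ≤ e) (hy : |y - b| ≤ f) (ha : |a| ≤ 3) (hb : |b| ≤ 3)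
    (hf1 : f ≤ 1) : |x * y - a * b| ≤ 4 * e + 3 * f := by
  have h : x * y - a * b = (x - a) * y + a * (y - b) := by ring
  have hy2 : |y| ≤ 4 := by
    have := abs_add_le (y - b) b
    rw [sub_add_cancel] at this
    linarith
  calc |x * y - a * b| = |(x - a) * y + a * (y - b)| := by rw [h]
    _ ≤ |(x - a) * y| + |a * (y - b)| := abs_add_le _ _
    _ ≤ e * 4 + 3 * f := add_le_add (tb hx hy2) (tb ha hy)
    _ = 4 * e + 3 * f := by ring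

theorem near {x a v e t : ℝ} (h : |x - a| ≤ e) (h1 : a - v + e ≤ t) (h2 : v - a + e ≤ t) :
    |x - v| ≤ t := by
  rw [abs_le] at h ⊢
  constructor <;> linarith [h.1, h.2]

theorem core_num (ξ η α β γ : ℝ) :
    (121434 / 10 ^ 4) * (β ^ 2 - ξ * β) + (56230 / 10 ^ 4) * (α ^ 2 + η * α) + (177664 / 10 ^ 4) * γ ^ 2
      - (52469 / 10 ^ 4) * (η * γ)
      - 12 * ((-94441 / 10 ^ 5) * ξ + (-50167 / 10 ^ 5) * η + (-162680 / 10 ^ 5) * α + (306250 / 10 ^ 5) * β + (-166209 / 10 ^ 5) * γ) ^ 2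
      - 12 * ((57352 / 10 ^ 5) * ξ + (30466 / 10 ^ 5) * η + (98793 / 10 ^ 5) * α + (-185980 / 10 ^ 5) * β + (321762 / 10 ^ 5) * γ) ^ 2
      - 12 * ((211809 / 10 ^ 5) * ξ + (-112513 / 10 ^ 5) * η + (-162680 / 10 ^ 5) * α + (-306250 / 10 ^ 5) * β + (166209 / 10 ^ 5) * γ) ^ 2
      - 12 * ((-128627 / 10 ^ 5) * ξ + (68327 / 10 ^ 5) * η + (98793 / 10 ^ 5) * α + (185980 / 10 ^ 5) * β + (-321762 / 10 ^ 5) * γ) ^ 2
    ≤ -(65 / 100) * (ξ ^ 2 + η ^ 2 + α ^ 2 + β ^ 2 + γ ^ 2) := by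
  linarith [sq_nonneg ((10000 / 10 ^ 4) * ξ + (-3579 / 10 ^ 4) * η + (-3579 / 10 ^ 4) * α + (-16885 / 10 ^ 4) * β + (15163 / 10 ^ 4) * γ),
    sq_nonneg ((10000 / 10 ^ 4) * η + (22635 / 10 ^ 4) * α + (-16605 / 10 ^ 4) * β + (17782 / 10 ^ 4) * γ),
    sq_nonneg ((10000 / 10 ^ 4) * α + (-14744 / 10 ^ 4) * β + (-17308 / 10 ^ 4) * γ),
    sq_nonneg ((10000 / 10 ^ 4) * β + (-28523 / 10 ^ 4) * γ),
    sq_nonneg ((10000 / 10 ^ 4) * γ),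
    sq_nonneg (ξ + η),
    sq_nonneg (ξ - η),
    sq_nonneg (ξ + α),
    sq_nonneg (ξ - α),
    sq_nonneg (ξ + β),
    sq_nonneg (ξ - β),
    sq_nonneg (ξ + γ),
    sq_nonneg (ξ - γ),
    sq_nonneg (η + α),
    sq_nonneg (η - α),
    sq_nonneg (η + β),
    sq_nonneg (η - β),
    sq_nonneg (η + γ),
    sq_nonneg (η - γ),
    sq_nonneg (α + β),
    sq_nonneg (α - β),
    sq_nonneg (α + γ),
    sq_nonneg (α - γ),
    sq_nonneg (β + γ),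
    sq_nonneg (β - γ),
    sq_nonneg ξ,
    sq_nonneg η,
    sq_nonneg α,
    sq_nonneg β,
    sq_nonneg γ]

/-- the enclosures of the basic quantities -/
structure Enc (f P1 P3 E F a1 a2 a3 b1 b2 b3 w1 w2 : ℝ) : Prop where
  hf : |f - 1618033988750 / 10 ^ 12| ≤ 1 / 10 ^ 9
  hP1 : |P1 - 1824223116526 / 10 ^ 12| ≤ 1 / 10 ^ 9
  hP3 : |P3 - (-538742990565) / 10 ^ 12| ≤ 1 / 10 ^ 9
  hE : |E - 859500837238 / 10 ^ 12| ≤ 1 / 10 ^ 9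
  hF : |F - 802012669499 / 10 ^ 12| ≤ 1 / 10 ^ 9
  ha1 : |a1 - 1635546068910 / 10 ^ 12| ≤ 1 / 10 ^ 9
  ha2 : |a2 - 355189736545 / 10 ^ 12| ≤ 1 / 10 ^ 9
  ha3 : |a3 - 946363308251 / 10 ^ 12| ≤ 1 / 10 ^ 9
  hb1 : |b1 - 1010823060753 / 10 ^ 12| ≤ 1 / 10 ^ 9
  hb2 : |b2 - 1531247998455 / 10 ^ 12| ≤ 1 / 10 ^ 9
  hb3 : |b3 - 574709066185 / 10 ^ 12| ≤ 1 / 10 ^ 9
  hw1 : |w1 - 568555554873 / 10 ^ 12| ≤ 1 / 10 ^ 9
  hw2 : |w2 - 936230429434 / 10 ^ 12| ≤ 1 / 10 ^ 9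

theorem mbd {ξ η α β γ s : ℝ} (hs : s = ξ^2 + η^2 + α^2 + β^2 + γ^2) :
    |ξ * β| ≤ s ∧ |η * α| ≤ s ∧ |η * γ| ≤ s ∧ |α ^ 2| ≤ s ∧ |β ^ 2| ≤ s ∧ |γ ^ 2| ≤ s := by
  have q1 := sq_nonneg ξ
  have q2 := sq_nonneg η
  have q3 := sq_nonneg α
  have q4 := sq_nonneg β
  have q5 := sq_nonneg γ
  refine ⟨?_, ?_, ?_, ?_, ?_, ?_⟩ <;> rw [abs_le]
  · constructor <;> nlinarith [sq_nonneg (ξ + β), sq_nonneg (ξ - β)]
  · constructor <;> nlinarith [sq_nonneg (η + α), sq_nonneg (η - α)]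
  · constructor <;> nlinarith [sq_nonneg (η + γ), sq_nonneg (η - γ)]
  · constructor <;> linarith
  · constructor <;> linarith
  · constructor <;> linarith

/-- the quadratic part of the weighted sum -/
theorem quad {f P1 P3 E F a1 a2 a3 b1 b2 b3 w1 w2 ξ η α β γ s : ℝ}
    (h : Enc f P1 P3 E F a1 a2 a3 b1 b2 b3 w1 w2) (hz : w1 * a3 = w2 * b3)
    (hs : s = ξ^2 + η^2 + α^2 + β^2 + γ^2) :
    w1 * Qf ξ η α β γ P1 0 (-E) f F a1 a2 (-a3) + w2 * Qf ξ η α β γ P1 0 (-E) f F b1 b2 b3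
      + w1 * Qf ξ η α β γ P1 0 E f (-F) a1 (-a2) a3
      + w2 * Qf ξ η α β γ P1 0 E f (-F) b1 (-b2) (-b3)
    ≤ (121434 / 10 ^ 4) * (β ^ 2 - ξ * β) + (56230 / 10 ^ 4) * (α ^ 2 + η * α)
      + (177664 / 10 ^ 4) * γ ^ 2 - (52469 / 10 ^ 4) * (η * γ) + 1 / 10 ^ 2 * s := by
  obtain ⟨hf, hP1, hP3, hE, hF, ha1, ha2, ha3, hb1, hb2, hb3, hw1, hw2⟩ := h
  have ga2F : |a2 * F - 284866668785 / 10 ^ 12| ≤ 1 / 10 ^ 8 := near (em3 ha2 hF (abs_le.2 ⟨by norm_num, by norm_num⟩) (abs_le.2 ⟨by norm_num, by norm_num⟩) (by norm_num)) (by norm_num) (by norm_num)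
  have gb2F : |b2 * F - 1228080294906 / 10 ^ 12| ≤ 1 / 10 ^ 8 := near (em3 hb2 hF (abs_le.2 ⟨by norm_num, by norm_num⟩) (abs_le.2 ⟨by norm_num, by norm_num⟩) (by norm_num)) (by norm_num) (by norm_num)
  have gP3f : |P3 * f - (-871704469935) / 10 ^ 12| ≤ 1 / 10 ^ 8 := near (em3 hP3 hf (abs_le.2 ⟨by norm_num, by norm_num⟩) (abs_le.2 ⟨by norm_num, by norm_num⟩) (by norm_num)) (by norm_num) (by norm_num)
  have ga3f : |a3 * f - 1531247998455 / 10 ^ 12| ≤ 1 / 10 ^ 8 := near (em3 ha3 hf (abs_le.2 ⟨by norm_num, by norm_num⟩) (abs_le.2 ⟨by norm_num, by norm_num⟩) (by norm_num)) (by norm_num) (by norm_num)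
  have gb3f : |b3 * f - 929898802730 / 10 ^ 12| ≤ 1 / 10 ^ 8 := near (em3 hb3 hf (abs_le.2 ⟨by norm_num, by norm_num⟩) (abs_le.2 ⟨by norm_num, by norm_num⟩) (by norm_num)) (by norm_num) (by norm_num)
  have ga2f : |a2 * f - 574709066185 / 10 ^ 12| ≤ 1 / 10 ^ 8 := near (em3 ha2 hf (abs_le.2 ⟨by norm_num, by norm_num⟩) (abs_le.2 ⟨by norm_num, by norm_num⟩) (by norm_num)) (by norm_num) (by norm_num)
  have gb2f : |b2 * f - 2477611306706 / 10 ^ 12| ≤ 1 / 10 ^ 8 := near (em3 hb2 hf (abs_le.2 ⟨by norm_num, by norm_num⟩) (abs_le.2 ⟨by norm_num, by norm_num⟩) (by norm_num)) (by norm_num) (by norm_num)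
  have gP3E : |P3 * E - (-463050051447) / 10 ^ 12| ≤ 1 / 10 ^ 8 := near (em3 hP3 hE (abs_le.2 ⟨by norm_num, by norm_num⟩) (abs_le.2 ⟨by norm_num, by norm_num⟩) (by norm_num)) (by norm_num) (by norm_num)
  have ga3E : |a3 * E - 813400055773 / 10 ^ 12| ≤ 1 / 10 ^ 8 := near (em3 ha3 hE (abs_le.2 ⟨by norm_num, by norm_num⟩) (abs_le.2 ⟨by norm_num, by norm_num⟩) (by norm_num)) (by norm_num) (by norm_num)
  have gb3E : |b3 * E - 493962923554 / 10 ^ 12| ≤ 1 / 10 ^ 8 := near (em3 hb3 hE (abs_le.2 ⟨by norm_num, by norm_num⟩) (abs_le.2 ⟨by norm_num, by norm_num⟩) (by norm_num)) (by norm_num) (by norm_num)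
  have ga1E : |a1 * E - 1405753215570 / 10 ^ 12| ≤ 1 / 10 ^ 8 := near (em3 ha1 hE (abs_le.2 ⟨by norm_num, by norm_num⟩) (abs_le.2 ⟨by norm_num, by norm_num⟩) (by norm_num)) (by norm_num) (by norm_num)
  have gb1E : |b1 * E - 868803267017 / 10 ^ 12| ≤ 1 / 10 ^ 8 := near (em3 hb1 hE (abs_le.2 ⟨by norm_num, by norm_num⟩) (abs_le.2 ⟨by norm_num, by norm_num⟩) (by norm_num)) (by norm_num) (by norm_num)
  have gP1F : |P1 * F - 1463050051447 / 10 ^ 12| ≤ 1 / 10 ^ 8 := near (em3 hP1 hF (abs_le.2 ⟨by norm_num, by norm_num⟩) (abs_le.2 ⟨by norm_num, by norm_num⟩) (by norm_num)) (by norm_num) (by norm_num)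
  have ga1F : |a1 * F - 1311728668815 / 10 ^ 12| ≤ 1 / 10 ^ 8 := near (em3 ha1 hF (abs_le.2 ⟨by norm_num, by norm_num⟩) (abs_le.2 ⟨by norm_num, by norm_num⟩) (by norm_num)) (by norm_num) (by norm_num)
  have gb1F : |b1 * F - 810692901346 / 10 ^ 12| ≤ 1 / 10 ^ 8 := near (em3 hb1 hF (abs_le.2 ⟨by norm_num, by norm_num⟩) (abs_le.2 ⟨by norm_num, by norm_num⟩) (by norm_num)) (by norm_num) (by norm_num)
  have gw1a1 : |w1 * a1 - 929898802730 / 10 ^ 12| ≤ 1 / 10 ^ 8 := near (em3 hw1 ha1 (abs_le.2 ⟨by norm_num, by norm_num⟩) (abs_le.2 ⟨by norm_num, by norm_num⟩) (by norm_num)) (by norm_num) (by norm_num)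
  have gw2b1 : |w2 * b1 - 946363308251 / 10 ^ 12| ≤ 1 / 10 ^ 8 := near (em3 hw2 hb1 (abs_le.2 ⟨by norm_num, by norm_num⟩) (abs_le.2 ⟨by norm_num, by norm_num⟩) (by norm_num)) (by norm_num) (by norm_num)
  have gw1a2 : |w1 * a2 - 201945097746 / 10 ^ 12| ≤ 1 / 10 ^ 8 := near (em3 hw1 ha2 (abs_le.2 ⟨by norm_num, by norm_num⟩) (abs_le.2 ⟨by norm_num, by norm_num⟩) (by norm_num)) (by norm_num) (by norm_num)
  have gw2b2 : |w2 * b2 - 1433600971164 / 10 ^ 12| ≤ 1 / 10 ^ 8 := near (em3 hw2 hb2 (abs_le.2 ⟨by norm_num, by norm_num⟩) (abs_le.2 ⟨by norm_num, by norm_num⟩) (by norm_num)) (by norm_num) (by norm_num)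
  have hX : |(w1 * a1 + w2 * b1) - 1876262110980 / 10 ^ 12| ≤ 1 / 10 ^ 7 := by
    rw [abs_le] at gw1a1 gw2b1 ⊢
    constructor <;> linarith only [gw1a1.1, gw1a1.2, gw2b1.1, gw2b1.2]
  have hY : |(w1 * a2 + w2 * b2) - 1635546068910 / 10 ^ 12| ≤ 1 / 10 ^ 7 := by
    rw [abs_le] at gw1a2 gw2b2 ⊢
    constructor <;> linarith only [gw1a2.1, gw1a2.2, gw2b2.1, gw2b2.2]
  have hW : |(w1 + w2) - 1504785984307 / 10 ^ 12| ≤ 1 / 10 ^ 7 := by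
    rw [abs_le] at hw1 hw2 ⊢
    constructor <;> linarith only [hw1.1, hw1.2, hw2.1, hw2.2]
  have hfX : |f * (w1 * a1 + w2 * b1) - 3035855867370 / 10 ^ 12| ≤ 1 / 10 ^ 6 := near (em3 hf hX (abs_le.2 ⟨by norm_num, by norm_num⟩) (abs_le.2 ⟨by norm_num, by norm_num⟩) (by norm_num)) (by norm_num) (by norm_num)
  have hEY : |E * (w1 * a2 + w2 * b2) - 1405753215570 / 10 ^ 12| ≤ 1 / 10 ^ 6 := near (em3 hE hY (abs_le.2 ⟨by norm_num, by norm_num⟩) (abs_le.2 ⟨by norm_num, by norm_num⟩) (by norm_num)) (by norm_num) (by norm_num)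
  have hFY : |F * (w1 * a2 + w2 * b2) - 1311728668815 / 10 ^ 12| ≤ 1 / 10 ^ 6 := near (em3 hF hY (abs_le.2 ⟨by norm_num, by norm_num⟩) (abs_le.2 ⟨by norm_num, by norm_num⟩) (by norm_num)) (by norm_num) (by norm_num)
  have hPW : |P1 * (w1 + w2) - 2745065377997 / 10 ^ 12| ≤ 1 / 10 ^ 6 := near (em3 hP1 hW (abs_le.2 ⟨by norm_num, by norm_num⟩) (abs_le.2 ⟨by norm_num, by norm_num⟩) (by norm_num)) (by norm_num) (by norm_num)
  have hfPW : |f * (P1 * (w1 + w2)) - 4441609082940 / 10 ^ 12| ≤ 1 / 10 ^ 5 := near (em3 hf hPW (abs_le.2 ⟨by norm_num, by norm_num⟩) (abs_le.2 ⟨by norm_num, by norm_num⟩) (by norm_num)) (by norm_num) (by norm_num)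
  obtain ⟨m1, m2, m3, m4, m5, m6⟩ := mbd hs
  have k1 : |4 * (f * (w1 * a1 + w2 * b1)) - 121434 / 10 ^ 4| ≤ 1 / 10 ^ 4 := by
    rw [abs_le] at hfX ⊢; constructor <;> linarith only [hfX.1, hfX.2]
  have k2 : |4 * (E * (w1 * a2 + w2 * b2)) - 56230 / 10 ^ 4| ≤ 1 / 10 ^ 4 := by
    rw [abs_le] at hEY ⊢; constructor <;> linarith only [hEY.1, hEY.2]
  have k3 : |4 * (F * (w1 * a2 + w2 * b2)) - 52469 / 10 ^ 4| ≤ 1 / 10 ^ 4 := by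
    rw [abs_le] at hFY ⊢; constructor <;> linarith only [hFY.1, hFY.2]
  have k4 : |(2 * (f * (P1 * (w1 + w2))) - 2 * (f * (w1 * a1 + w2 * b1)) + 2 * (E * (w1 * a2 + w2 * b2))) - 56230 / 10 ^ 4| ≤ 1 / 10 ^ 4 := by
    rw [abs_le] at hfPW hfX hEY ⊢; constructor <;> linarith only [hfX.1, hfX.2, hEY.1, hEY.2, hfPW.1, hfPW.2]
  have k5 : |(2 * (f * (P1 * (w1 + w2))) + 2 * (f * (w1 * a1 + w2 * b1)) - 2 * (E * (w1 * a2 + w2 * b2))) - 121434 / 10 ^ 4| ≤ 1 / 10 ^ 4 := by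
    rw [abs_le] at hfPW hfX hEY ⊢; constructor <;> linarith only [hfX.1, hfX.2, hEY.1, hEY.2, hfPW.1, hfPW.2]
  have k6 : |(2 * (f * (P1 * (w1 + w2))) + 2 * (f * (w1 * a1 + w2 * b1)) + 2 * (E * (w1 * a2 + w2 * b2))) - 177664 / 10 ^ 4| ≤ 1 / 10 ^ 4 := by
    rw [abs_le] at hfPW hfX hEY ⊢; constructor <;> linarith only [hfX.1, hfX.2, hEY.1, hEY.2, hfPW.1, hfPW.2]
  have t1 := abs_le.1 (tb k1 m1)
  have t2 := abs_le.1 (tb k2 m2)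
  have t3 := abs_le.1 (tb k3 m3)
  have t4 := abs_le.1 (tb k4 m4)
  have t5 := abs_le.1 (tb k5 m5)
  have t6 := abs_le.1 (tb k6 m6)
  have e : w1 * Qf ξ η α β γ P1 0 (-E) f F a1 a2 (-a3) + w2 * Qf ξ η α β γ P1 0 (-E) f F b1 b2 b3
      + w1 * Qf ξ η α β γ P1 0 E f (-F) a1 (-a2) a3
      + w2 * Qf ξ η α β γ P1 0 E f (-F) b1 (-b2) (-b3)
      = -(4 * (f * (w1 * a1 + w2 * b1))) * (ξ * β) + 4 * (E * (w1 * a2 + w2 * b2)) * (η * α)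
        - 4 * (F * (w1 * a2 + w2 * b2)) * (η * γ)
        + (2 * (f * (P1 * (w1 + w2))) - 2 * (f * (w1 * a1 + w2 * b1)) + 2 * (E * (w1 * a2 + w2 * b2))) * α ^ 2
        + (2 * (f * (P1 * (w1 + w2))) + 2 * (f * (w1 * a1 + w2 * b1)) - 2 * (E * (w1 * a2 + w2 * b2))) * β ^ 2
        + (2 * (f * (P1 * (w1 + w2))) + 2 * (f * (w1 * a1 + w2 * b1)) + 2 * (E * (w1 * a2 + w2 * b2))) * γ ^ 2 := by
    simp only [Qf]
    linear_combination (4 * E * β * γ - 4 * F * ξ * α - 4 * F * η * β) * hz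
  rw [e]
  linarith only [t1.1, t1.2, t2.1, t2.2, t3.1, t3.2, t4.1, t4.2, t5.1, t5.2, t6.1, t6.2]

end Pool.Agent.W2helper1.NW
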