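import Pool.Agent.W2helper1.NW.LI

/-! Piece LI of project NW: the local inequality for the icosahedron, second part. -/

set_option autoImplicit false

namespace Pool.Agent.W2helper1.NW

open Pool.Agent.W2helper59.NW

theorem lin1 {f P1 P3 E F a1 a2 a3 b1 b2 b3 w1 w2 ξ η α β γ r : ℝ}
    (h : Enc f P1 P3 E F a1 a2 a3 b1 b2 b3 w1 w2)
    (hξ : |ξ| ≤ r) (hη : |η| ≤ r) (hα : |α| ≤ r) (hβ : |β| ≤ r) (hγ : |γ| ≤ r) :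
    |Lf ξ η α β γ P1 0 P3 (-E) f F a1 a2 (-a3)
      - ((-94441 / 10 ^ 5) * ξ + (-50167 / 10 ^ 5) * η + (-162680 / 10 ^ 5) * α + (306250 / 10 ^ 5) * β + (-166209 / 10 ^ 5) * γ)| ≤ 5 / 10 ^ 5 * r := by
  obtain ⟨hf, hP1, hP3, hE, hF, ha1, ha2, ha3, hb1, hb2, hb3, hw1, hw2⟩ := h
  have ga2F := abs_le.1 (near (v := 284866668785 / 10 ^ 12) (t := 1 / 10 ^ 8) (em3 ha2 hF (abs_le.2 ⟨by norm_num, by norm_num⟩) (abs_le.2 ⟨by norm_num, by norm_num⟩) (by norm_num)) (by norm_num) (by norm_num))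
  have gP3f := abs_le.1 (near (v := (-871704469935) / 10 ^ 12) (t := 1 / 10 ^ 8) (em3 hP3 hf (abs_le.2 ⟨by norm_num, by norm_num⟩) (abs_le.2 ⟨by norm_num, by norm_num⟩) (by norm_num)) (by norm_num) (by norm_num))
  have ga3f := abs_le.1 (near (v := 1531247998455 / 10 ^ 12) (t := 1 / 10 ^ 8) (em3 ha3 hf (abs_le.2 ⟨by norm_num, by norm_num⟩) (abs_le.2 ⟨by norm_num, by norm_num⟩) (by norm_num)) (by norm_num) (by norm_num))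
  have ga2f := abs_le.1 (near (v := 574709066185 / 10 ^ 12) (t := 1 / 10 ^ 8) (em3 ha2 hf (abs_le.2 ⟨by norm_num, by norm_num⟩) (abs_le.2 ⟨by norm_num, by norm_num⟩) (by norm_num)) (by norm_num) (by norm_num))
  have gP3E := abs_le.1 (near (v := (-463050051447) / 10 ^ 12) (t := 1 / 10 ^ 8) (em3 hP3 hE (abs_le.2 ⟨by norm_num, by norm_num⟩) (abs_le.2 ⟨by norm_num, by norm_num⟩) (by norm_num)) (by norm_num) (by norm_num))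
  have ga3E := abs_le.1 (near (v := 813400055773 / 10 ^ 12) (t := 1 / 10 ^ 8) (em3 ha3 hE (abs_le.2 ⟨by norm_num, by norm_num⟩) (abs_le.2 ⟨by norm_num, by norm_num⟩) (by norm_num)) (by norm_num) (by norm_num))
  have ga1E := abs_le.1 (near (v := 1405753215570 / 10 ^ 12) (t := 1 / 10 ^ 8) (em3 ha1 hE (abs_le.2 ⟨by norm_num, by norm_num⟩) (abs_le.2 ⟨by norm_num, by norm_num⟩) (by norm_num)) (by norm_num) (by norm_num))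
  have gP1F := abs_le.1 (near (v := 1463050051447 / 10 ^ 12) (t := 1 / 10 ^ 8) (em3 hP1 hF (abs_le.2 ⟨by norm_num, by norm_num⟩) (abs_le.2 ⟨by norm_num, by norm_num⟩) (by norm_num)) (by norm_num) (by norm_num))
  have ga1F := abs_le.1 (near (v := 1311728668815 / 10 ^ 12) (t := 1 / 10 ^ 8) (em3 ha1 hF (abs_le.2 ⟨by norm_num, by norm_num⟩) (abs_le.2 ⟨by norm_num, by norm_num⟩) (by norm_num)) (by norm_num) (by norm_num))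
  have c1 : |((0 - a2) * F - (P3 - (-a3)) * f) - (-94441) / 10 ^ 5| ≤ 1 / 10 ^ 5 := by
    rw [abs_le]; constructor <;> linarith only [ga2F.1, ga2F.2, gP3f.1, gP3f.2, ga3f.1, ga3f.2, ga2f.1, ga2f.2, gP3E.1, gP3E.2, ga3E.1, ga3E.2, ga1E.1, ga1E.2, gP1F.1, gP1F.2, ga1F.1, ga1F.2]
  have c2 : |((P3 - (-a3)) * (-E) - (P1 - a1) * F) - (-50167) / 10 ^ 5| ≤ 1 / 10 ^ 5 := by
    rw [abs_le]; constructor <;> linarith only [ga2F.1, ga2F.2, gP3f.1, gP3f.2, ga3f.1, ga3f.2, ga2f.1, ga2f.2, gP3E.1, gP3E.2, ga3E.1, ga3E.2, ga1E.1, ga1E.2, gP1F.1, gP1F.2, ga1F.1, ga1F.2]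
  have c3 : |(-2 * (-a3) * (-E)) - (-162680) / 10 ^ 5| ≤ 1 / 10 ^ 5 := by
    rw [abs_le]; constructor <;> linarith only [ga2F.1, ga2F.2, gP3f.1, gP3f.2, ga3f.1, ga3f.2, ga2f.1, ga2f.2, gP3E.1, gP3E.2, ga3E.1, ga3E.2, ga1E.1, ga1E.2, gP1F.1, gP1F.2, ga1F.1, ga1F.2]
  have c4 : |(-2 * (-a3) * f) - (306250) / 10 ^ 5| ≤ 1 / 10 ^ 5 := by
    rw [abs_le]; constructor <;> linarith only [ga2F.1, ga2F.2, gP3f.1, gP3f.2, ga3f.1, ga3f.2, ga2f.1, ga2f.2, gP3E.1, gP3E.2, ga3E.1, ga3E.2, ga1E.1, ga1E.2, gP1F.1, gP1F.2, ga1F.1, ga1F.2]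
  have c5 : |(2 * a2 * f + 2 * a1 * (-E)) - (-166209) / 10 ^ 5| ≤ 1 / 10 ^ 5 := by
    rw [abs_le]; constructor <;> linarith only [ga2F.1, ga2F.2, gP3f.1, gP3f.2, ga3f.1, ga3f.2, ga2f.1, ga2f.2, gP3E.1, gP3E.2, ga3E.1, ga3E.2, ga1E.1, ga1E.2, gP1F.1, gP1F.2, ga1F.1, ga1F.2]
  have e := lin_err hξ hη hα hβ hγ c1 c2 c3 c4 c5
  have e2 : Lf ξ η α β γ P1 0 P3 (-E) f F a1 a2 (-a3)
      = ξ * ((0 - a2) * F - (P3 - (-a3)) * f) + η * ((P3 - (-a3)) * (-E) - (P1 - a1) * F) + α * (-2 * (-a3) * (-E)) + β * (-2 * (-a3) * f) + γ * (2 * a2 * f + 2 * a1 * (-E)) := by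
    simp only [Lf]; ring
  rw [e2]
  exact e

theorem lin2 {f P1 P3 E F a1 a2 a3 b1 b2 b3 w1 w2 ξ η α β γ r : ℝ}
    (h : Enc f P1 P3 E F a1 a2 a3 b1 b2 b3 w1 w2)
    (hξ : |ξ| ≤ r) (hη : |η| ≤ r) (hα : |α| ≤ r) (hβ : |β| ≤ r) (hγ : |γ| ≤ r) :
    |Lf ξ η α β γ P1 0 P3 (-E) f F b1 b2 b3
      - ((57352 / 10 ^ 5) * ξ + (30466 / 10 ^ 5) * η + (98793 / 10 ^ 5) * α + (-185980 / 10 ^ 5) * β + (321762 / 10 ^ 5) * γ)| ≤ 5 / 10 ^ 5 * r := by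
  obtain ⟨hf, hP1, hP3, hE, hF, ha1, ha2, ha3, hb1, hb2, hb3, hw1, hw2⟩ := h
  have gb2F := abs_le.1 (near (v := 1228080294906 / 10 ^ 12) (t := 1 / 10 ^ 8) (em3 hb2 hF (abs_le.2 ⟨by norm_num, by norm_num⟩) (abs_le.2 ⟨by norm_num, by norm_num⟩) (by norm_num)) (by norm_num) (by norm_num))
  have gP3f := abs_le.1 (near (v := (-871704469935) / 10 ^ 12) (t := 1 / 10 ^ 8) (em3 hP3 hf (abs_le.2 ⟨by norm_num, by norm_num⟩) (abs_le.2 ⟨by norm_num, by norm_num⟩) (by norm_num)) (by norm_num) (by norm_num))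
  have gb3f := abs_le.1 (near (v := 929898802730 / 10 ^ 12) (t := 1 / 10 ^ 8) (em3 hb3 hf (abs_le.2 ⟨by norm_num, by norm_num⟩) (abs_le.2 ⟨by norm_num, by norm_num⟩) (by norm_num)) (by norm_num) (by norm_num))
  have gb2f := abs_le.1 (near (v := 2477611306706 / 10 ^ 12) (t := 1 / 10 ^ 8) (em3 hb2 hf (abs_le.2 ⟨by norm_num, by norm_num⟩) (abs_le.2 ⟨by norm_num, by norm_num⟩) (by norm_num)) (by norm_num) (by norm_num))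
  have gP3E := abs_le.1 (near (v := (-463050051447) / 10 ^ 12) (t := 1 / 10 ^ 8) (em3 hP3 hE (abs_le.2 ⟨by norm_num, by norm_num⟩) (abs_le.2 ⟨by norm_num, by norm_num⟩) (by norm_num)) (by norm_num) (by norm_num))
  have gb3E := abs_le.1 (near (v := 493962923554 / 10 ^ 12) (t := 1 / 10 ^ 8) (em3 hb3 hE (abs_le.2 ⟨by norm_num, by norm_num⟩) (abs_le.2 ⟨by norm_num, by norm_num⟩) (by norm_num)) (by norm_num) (by norm_num))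
  have gb1E := abs_le.1 (near (v := 868803267017 / 10 ^ 12) (t := 1 / 10 ^ 8) (em3 hb1 hE (abs_le.2 ⟨by norm_num, by norm_num⟩) (abs_le.2 ⟨by norm_num, by norm_num⟩) (by norm_num)) (by norm_num) (by norm_num))
  have gP1F := abs_le.1 (near (v := 1463050051447 / 10 ^ 12) (t := 1 / 10 ^ 8) (em3 hP1 hF (abs_le.2 ⟨by norm_num, by norm_num⟩) (abs_le.2 ⟨by norm_num, by norm_num⟩) (by norm_num)) (by norm_num) (by norm_num))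
  have gb1F := abs_le.1 (near (v := 810692901346 / 10 ^ 12) (t := 1 / 10 ^ 8) (em3 hb1 hF (abs_le.2 ⟨by norm_num, by norm_num⟩) (abs_le.2 ⟨by norm_num, by norm_num⟩) (by norm_num)) (by norm_num) (by norm_num))
  have c1 : |((0 - b2) * F - (P3 - b3) * f) - (57352) / 10 ^ 5| ≤ 1 / 10 ^ 5 := by
    rw [abs_le]; constructor <;> linarith only [gb2F.1, gb2F.2, gP3f.1, gP3f.2, gb3f.1, gb3f.2, gb2f.1, gb2f.2, gP3E.1, gP3E.2, gb3E.1, gb3E.2, gb1E.1, gb1E.2, gP1F.1, gP1F.2, gb1F.1, gb1F.2]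
  have c2 : |((P3 - b3) * (-E) - (P1 - b1) * F) - (30466) / 10 ^ 5| ≤ 1 / 10 ^ 5 := by
    rw [abs_le]; constructor <;> linarith only [gb2F.1, gb2F.2, gP3f.1, gP3f.2, gb3f.1, gb3f.2, gb2f.1, gb2f.2, gP3E.1, gP3E.2, gb3E.1, gb3E.2, gb1E.1, gb1E.2, gP1F.1, gP1F.2, gb1F.1, gb1F.2]
  have c3 : |(-2 * b3 * (-E)) - (98793) / 10 ^ 5| ≤ 1 / 10 ^ 5 := by
    rw [abs_le]; constructor <;> linarith only [gb2F.1, gb2F.2, gP3f.1, gP3f.2, gb3f.1, gb3f.2, gb2f.1, gb2f.2, gP3E.1, gP3E.2, gb3E.1, gb3E.2, gb1E.1, gb1E.2, gP1F.1, gP1F.2, gb1F.1, gb1F.2]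
  have c4 : |(-2 * b3 * f) - (-185980) / 10 ^ 5| ≤ 1 / 10 ^ 5 := by
    rw [abs_le]; constructor <;> linarith only [gb2F.1, gb2F.2, gP3f.1, gP3f.2, gb3f.1, gb3f.2, gb2f.1, gb2f.2, gP3E.1, gP3E.2, gb3E.1, gb3E.2, gb1E.1, gb1E.2, gP1F.1, gP1F.2, gb1F.1, gb1F.2]
  have c5 : |(2 * b2 * f + 2 * b1 * (-E)) - (321762) / 10 ^ 5| ≤ 1 / 10 ^ 5 := by
    rw [abs_le]; constructor <;> linarith only [gb2F.1, gb2F.2, gP3f.1, gP3f.2, gb3f.1, gb3f.2, gb2f.1, gb2f.2, gP3E.1, gP3E.2, gb3E.1, gb3E.2, gb1E.1, gb1E.2, gP1F.1, gP1F.2, gb1F.1, gb1F.2]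
  have e := lin_err hξ hη hα hβ hγ c1 c2 c3 c4 c5
  have e2 : Lf ξ η α β γ P1 0 P3 (-E) f F b1 b2 b3
      = ξ * ((0 - b2) * F - (P3 - b3) * f) + η * ((P3 - b3) * (-E) - (P1 - b1) * F) + α * (-2 * b3 * (-E)) + β * (-2 * b3 * f) + γ * (2 * b2 * f + 2 * b1 * (-E)) := by
    simp only [Lf]; ring
  rw [e2]
  exact e

theorem lin3 {f P1 P3 E F a1 a2 a3 b1 b2 b3 w1 w2 ξ η α β γ r : ℝ}
    (h : Enc f P1 P3 E F a1 a2 a3 b1 b2 b3 w1 w2)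
    (hξ : |ξ| ≤ r) (hη : |η| ≤ r) (hα : |α| ≤ r) (hβ : |β| ≤ r) (hγ : |γ| ≤ r) :
    |Lf ξ η α β γ P1 0 P3 E f (-F) a1 (-a2) a3
      - ((211809 / 10 ^ 5) * ξ + (-112513 / 10 ^ 5) * η + (-162680 / 10 ^ 5) * α + (-306250 / 10 ^ 5) * β + (166209 / 10 ^ 5) * γ)| ≤ 5 / 10 ^ 5 * r := by
  obtain ⟨hf, hP1, hP3, hE, hF, ha1, ha2, ha3, hb1, hb2, hb3, hw1, hw2⟩ := h
  have ga2F := abs_le.1 (near (v := 284866668785 / 10 ^ 12) (t := 1 / 10 ^ 8) (em3 ha2 hF (abs_le.2 ⟨by norm_num, by norm_num⟩) (abs_le.2 ⟨by norm_num, by norm_num⟩) (by norm_num)) (by norm_num) (by norm_num))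
  have gP3f := abs_le.1 (near (v := (-871704469935) / 10 ^ 12) (t := 1 / 10 ^ 8) (em3 hP3 hf (abs_le.2 ⟨by norm_num, by norm_num⟩) (abs_le.2 ⟨by norm_num, by norm_num⟩) (by norm_num)) (by norm_num) (by norm_num))
  have ga3f := abs_le.1 (near (v := 1531247998455 / 10 ^ 12) (t := 1 / 10 ^ 8) (em3 ha3 hf (abs_le.2 ⟨by norm_num, by norm_num⟩) (abs_le.2 ⟨by norm_num, by norm_num⟩) (by norm_num)) (by norm_num) (by norm_num))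
  have ga2f := abs_le.1 (near (v := 574709066185 / 10 ^ 12) (t := 1 / 10 ^ 8) (em3 ha2 hf (abs_le.2 ⟨by norm_num, by norm_num⟩) (abs_le.2 ⟨by norm_num, by norm_num⟩) (by norm_num)) (by norm_num) (by norm_num))
  have gP3E := abs_le.1 (near (v := (-463050051447) / 10 ^ 12) (t := 1 / 10 ^ 8) (em3 hP3 hE (abs_le.2 ⟨by norm_num, by norm_num⟩) (abs_le.2 ⟨by norm_num, by norm_num⟩) (by norm_num)) (by norm_num) (by norm_num))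
  have ga3E := abs_le.1 (near (v := 813400055773 / 10 ^ 12) (t := 1 / 10 ^ 8) (em3 ha3 hE (abs_le.2 ⟨by norm_num, by norm_num⟩) (abs_le.2 ⟨by norm_num, by norm_num⟩) (by norm_num)) (by norm_num) (by norm_num))
  have ga1E := abs_le.1 (near (v := 1405753215570 / 10 ^ 12) (t := 1 / 10 ^ 8) (em3 ha1 hE (abs_le.2 ⟨by norm_num, by norm_num⟩) (abs_le.2 ⟨by norm_num, by norm_num⟩) (by norm_num)) (by norm_num) (by norm_num))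
  have gP1F := abs_le.1 (near (v := 1463050051447 / 10 ^ 12) (t := 1 / 10 ^ 8) (em3 hP1 hF (abs_le.2 ⟨by norm_num, by norm_num⟩) (abs_le.2 ⟨by norm_num, by norm_num⟩) (by norm_num)) (by norm_num) (by norm_num))
  have ga1F := abs_le.1 (near (v := 1311728668815 / 10 ^ 12) (t := 1 / 10 ^ 8) (em3 ha1 hF (abs_le.2 ⟨by norm_num, by norm_num⟩) (abs_le.2 ⟨by norm_num, by norm_num⟩) (by norm_num)) (by norm_num) (by norm_num))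
  have c1 : |((0 - (-a2)) * (-F) - (P3 - a3) * f) - (211809) / 10 ^ 5| ≤ 1 / 10 ^ 5 := by
    rw [abs_le]; constructor <;> linarith only [ga2F.1, ga2F.2, gP3f.1, gP3f.2, ga3f.1, ga3f.2, ga2f.1, ga2f.2, gP3E.1, gP3E.2, ga3E.1, ga3E.2, ga1E.1, ga1E.2, gP1F.1, gP1F.2, ga1F.1, ga1F.2]
  have c2 : |((P3 - a3) * E - (P1 - a1) * (-F)) - (-112513) / 10 ^ 5| ≤ 1 / 10 ^ 5 := by
    rw [abs_le]; constructor <;> linarith only [ga2F.1, ga2F.2, gP3f.1, gP3f.2, ga3f.1, ga3f.2, ga2f.1, ga2f.2, gP3E.1, gP3E.2, ga3E.1, ga3E.2, ga1E.1, ga1E.2, gP1F.1, gP1F.2, ga1F.1, ga1F.2]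
  have c3 : |(-2 * a3 * E) - (-162680) / 10 ^ 5| ≤ 1 / 10 ^ 5 := by
    rw [abs_le]; constructor <;> linarith only [ga2F.1, ga2F.2, gP3f.1, gP3f.2, ga3f.1, ga3f.2, ga2f.1, ga2f.2, gP3E.1, gP3E.2, ga3E.1, ga3E.2, ga1E.1, ga1E.2, gP1F.1, gP1F.2, ga1F.1, ga1F.2]
  have c4 : |(-2 * a3 * f) - (-306250) / 10 ^ 5| ≤ 1 / 10 ^ 5 := by
    rw [abs_le]; constructor <;> linarith only [ga2F.1, ga2F.2, gP3f.1, gP3f.2, ga3f.1, ga3f.2, ga2f.1, ga2f.2, gP3E.1, gP3E.2, ga3E.1, ga3E.2, ga1E.1, ga1E.2, gP1F.1, gP1F.2, ga1F.1, ga1F.2]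
  have c5 : |(2 * (-a2) * f + 2 * a1 * E) - (166209) / 10 ^ 5| ≤ 1 / 10 ^ 5 := by
    rw [abs_le]; constructor <;> linarith only [ga2F.1, ga2F.2, gP3f.1, gP3f.2, ga3f.1, ga3f.2, ga2f.1, ga2f.2, gP3E.1, gP3E.2, ga3E.1, ga3E.2, ga1E.1, ga1E.2, gP1F.1, gP1F.2, ga1F.1, ga1F.2]
  have e := lin_err hξ hη hα hβ hγ c1 c2 c3 c4 c5
  have e2 : Lf ξ η α β γ P1 0 P3 E f (-F) a1 (-a2) a3
      = ξ * ((0 - (-a2)) * (-F) - (P3 - a3) * f) + η * ((P3 - a3) * E - (P1 - a1) * (-F)) + α * (-2 * a3 * E) + β * (-2 * a3 * f) + γ * (2 * (-a2) * f + 2 * a1 * E) := by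
    simp only [Lf]; ring
  rw [e2]
  exact e

theorem lin4 {f P1 P3 E F a1 a2 a3 b1 b2 b3 w1 w2 ξ η α β γ r : ℝ}
    (h : Enc f P1 P3 E F a1 a2 a3 b1 b2 b3 w1 w2)
    (hξ : |ξ| ≤ r) (hη : |η| ≤ r) (hα : |α| ≤ r) (hβ : |β| ≤ r) (hγ : |γ| ≤ r) :
    |Lf ξ η α β γ P1 0 P3 E f (-F) b1 (-b2) (-b3)
      - ((-128627 / 10 ^ 5) * ξ + (68327 / 10 ^ 5) * η + (98793 / 10 ^ 5) * α + (185980 / 10 ^ 5) * β + (-321762 / 10 ^ 5) * γ)| ≤ 5 / 10 ^ 5 * r := by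
  obtain ⟨hf, hP1, hP3, hE, hF, ha1, ha2, ha3, hb1, hb2, hb3, hw1, hw2⟩ := h
  have gb2F := abs_le.1 (near (v := 1228080294906 / 10 ^ 12) (t := 1 / 10 ^ 8) (em3 hb2 hF (abs_le.2 ⟨by norm_num, by norm_num⟩) (abs_le.2 ⟨by norm_num, by norm_num⟩) (by norm_num)) (by norm_num) (by norm_num))
  have gP3f := abs_le.1 (near (v := (-871704469935) / 10 ^ 12) (t := 1 / 10 ^ 8) (em3 hP3 hf (abs_le.2 ⟨by norm_num, by norm_num⟩) (abs_le.2 ⟨by norm_num, by norm_num⟩) (by norm_num)) (by norm_num) (by norm_num))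
  have gb3f := abs_le.1 (near (v := 929898802730 / 10 ^ 12) (t := 1 / 10 ^ 8) (em3 hb3 hf (abs_le.2 ⟨by norm_num, by norm_num⟩) (abs_le.2 ⟨by norm_num, by norm_num⟩) (by norm_num)) (by norm_num) (by norm_num))
  have gb2f := abs_le.1 (near (v := 2477611306706 / 10 ^ 12) (t := 1 / 10 ^ 8) (em3 hb2 hf (abs_le.2 ⟨by norm_num, by norm_num⟩) (abs_le.2 ⟨by norm_num, by norm_num⟩) (by norm_num)) (by norm_num) (by norm_num))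
  have gP3E := abs_le.1 (near (v := (-463050051447) / 10 ^ 12) (t := 1 / 10 ^ 8) (em3 hP3 hE (abs_le.2 ⟨by norm_num, by norm_num⟩) (abs_le.2 ⟨by norm_num, by norm_num⟩) (by norm_num)) (by norm_num) (by norm_num))
  have gb3E := abs_le.1 (near (v := 493962923554 / 10 ^ 12) (t := 1 / 10 ^ 8) (em3 hb3 hE (abs_le.2 ⟨by norm_num, by norm_num⟩) (abs_le.2 ⟨by norm_num, by norm_num⟩) (by norm_num)) (by norm_num) (by norm_num))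
  have gb1E := abs_le.1 (near (v := 868803267017 / 10 ^ 12) (t := 1 / 10 ^ 8) (em3 hb1 hE (abs_le.2 ⟨by norm_num, by norm_num⟩) (abs_le.2 ⟨by norm_num, by norm_num⟩) (by norm_num)) (by norm_num) (by norm_num))
  have gP1F := abs_le.1 (near (v := 1463050051447 / 10 ^ 12) (t := 1 / 10 ^ 8) (em3 hP1 hF (abs_le.2 ⟨by norm_num, by norm_num⟩) (abs_le.2 ⟨by norm_num, by norm_num⟩) (by norm_num)) (by norm_num) (by norm_num))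
  have gb1F := abs_le.1 (near (v := 810692901346 / 10 ^ 12) (t := 1 / 10 ^ 8) (em3 hb1 hF (abs_le.2 ⟨by norm_num, by norm_num⟩) (abs_le.2 ⟨by norm_num, by norm_num⟩) (by norm_num)) (by norm_num) (by norm_num))
  have c1 : |((0 - (-b2)) * (-F) - (P3 - (-b3)) * f) - (-128627) / 10 ^ 5| ≤ 1 / 10 ^ 5 := by
    rw [abs_le]; constructor <;> linarith only [gb2F.1, gb2F.2, gP3f.1, gP3f.2, gb3f.1, gb3f.2, gb2f.1, gb2f.2, gP3E.1, gP3E.2, gb3E.1, gb3E.2, gb1E.1, gb1E.2, gP1F.1, gP1F.2, gb1F.1, gb1F.2]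
  have c2 : |((P3 - (-b3)) * E - (P1 - b1) * (-F)) - (68327) / 10 ^ 5| ≤ 1 / 10 ^ 5 := by
    rw [abs_le]; constructor <;> linarith only [gb2F.1, gb2F.2, gP3f.1, gP3f.2, gb3f.1, gb3f.2, gb2f.1, gb2f.2, gP3E.1, gP3E.2, gb3E.1, gb3E.2, gb1E.1, gb1E.2, gP1F.1, gP1F.2, gb1F.1, gb1F.2]
  have c3 : |(-2 * (-b3) * E) - (98793) / 10 ^ 5| ≤ 1 / 10 ^ 5 := by
    rw [abs_le]; constructor <;> linarith only [gb2F.1, gb2F.2, gP3f.1, gP3f.2, gb3f.1, gb3f.2, gb2f.1, gb2f.2, gP3E.1, gP3E.2, gb3E.1, gb3E.2, gb1E.1, gb1E.2, gP1F.1, gP1F.2, gb1F.1, gb1F.2]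
  have c4 : |(-2 * (-b3) * f) - (185980) / 10 ^ 5| ≤ 1 / 10 ^ 5 := by
    rw [abs_le]; constructor <;> linarith only [gb2F.1, gb2F.2, gP3f.1, gP3f.2, gb3f.1, gb3f.2, gb2f.1, gb2f.2, gP3E.1, gP3E.2, gb3E.1, gb3E.2, gb1E.1, gb1E.2, gP1F.1, gP1F.2, gb1F.1, gb1F.2]
  have c5 : |(2 * (-b2) * f + 2 * b1 * E) - (-321762) / 10 ^ 5| ≤ 1 / 10 ^ 5 := by
    rw [abs_le]; constructor <;> linarith only [gb2F.1, gb2F.2, gP3f.1, gP3f.2, gb3f.1, gb3f.2, gb2f.1, gb2f.2, gP3E.1, gP3E.2, gb3E.1, gb3E.2, gb1E.1, gb1E.2, gP1F.1, gP1F.2, gb1F.1, gb1F.2]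
  have e := lin_err hξ hη hα hβ hγ c1 c2 c3 c4 c5
  have e2 : Lf ξ η α β γ P1 0 P3 E f (-F) b1 (-b2) (-b3)
      = ξ * ((0 - (-b2)) * (-F) - (P3 - (-b3)) * f) + η * ((P3 - (-b3)) * E - (P1 - b1) * (-F)) + α * (-2 * (-b3) * E) + β * (-2 * (-b3) * f) + γ * (2 * (-b2) * f + 2 * b1 * E) := by
    simp only [Lf]; ring
  rw [e2]
  exact e

theorem lbd {l ξ η α β γ k1 k2 k3 k4 k5 t : ℝ} (hl : l = k1 * ξ + k2 * η + k3 * α + k4 * β + k5 * γ)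
    (hk : |k1| + |k2| + |k3| + |k4| + |k5| ≤ 10) (ht : 0 ≤ t)
    (hξ : |ξ| ≤ t) (hη : |η| ≤ t) (hα : |α| ≤ t) (hβ : |β| ≤ t) (hγ : |γ| ≤ t) : |l| ≤ 10 * t := by
  have t1 := abs_le.1 (tb (le_refl |k1|) hξ)
  have t2 := abs_le.1 (tb (le_refl |k2|) hη)
  have t3 := abs_le.1 (tb (le_refl |k3|) hα)
  have t4 := abs_le.1 (tb (le_refl |k4|) hβ)
  have t5 := abs_le.1 (tb (le_refl |k5|) hγ)
  have hk2 : (|k1| + |k2| + |k3| + |k4| + |k5|) * t ≤ 10 * t := mul_le_mul_of_nonneg_right hk ht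
  rw [hl, abs_le]
  constructor <;> linarith only [t1.1, t1.2, t2.1, t2.2, t3.1, t3.2, t4.1, t4.2, t5.1, t5.2, hk2]

/-- one summand: `μ (L + Q + C)` with `μ = w - 12 l` -/
theorem term {w l L Q C r s : ℝ} (hs0 : 0 ≤ s) (hr2 : r ^ 2 = s) (hw : 1 / 2 ≤ w) (hw1 : w ≤ 95 / 100)
    (hl : |l| ≤ 10 * (2 / 10 ^ 5)) (hlr : |l| ≤ 10 * r) (hL : |L - l| ≤ 5 / 10 ^ 5 * r)
    (hQ : |Q| ≤ 44 * s) (hC : |C| ≤ 40 * (2 / 10 ^ 5 * s)) (hp : 0 < L + Q + C) :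
    0 < w * L + w * Q - 12 * l ^ 2 + 12 / 100 * s := by
  have h1 := lL_err hr2 hlr hL
  have h2 := abs_le.1 (tb hl hQ)
  have h3 : |w - 12 * l| ≤ 1 := by
    rw [abs_le] at hl ⊢
    constructor <;> linarith only [hl.1, hl.2, hw, hw1]
  have h4 := abs_le.1 (tb h3 hC)
  have h5 : 0 < w - 12 * l := by
    have := (abs_le.1 hl).2
    linarith only [this, hw]
  have h6 := mul_pos h5 hp
  linarith only [h1, h2.1, h2.2, h4.1, h4.2, h6, hs0]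

theorem final {w1 w2 ξ η α β γ r s l1 l2 l3 l4 L1 L2 L3 L4 Q1 Q2 Q3 Q4 C1 C2 C3 C4 : ℝ}
    (hs : s = ξ^2 + η^2 + α^2 + β^2 + γ^2)
    (hs0 : 0 ≤ s) (hr2 : r ^ 2 = s) (hr0 : 0 ≤ r)
    (hξ : |ξ| ≤ 2 / 10 ^ 5) (hη : |η| ≤ 2 / 10 ^ 5) (hα : |α| ≤ 2 / 10 ^ 5)
    (hβ : |β| ≤ 2 / 10 ^ 5) (hγ : |γ| ≤ 2 / 10 ^ 5)
    (rξ : |ξ| ≤ r) (rη : |η| ≤ r) (rα : |α| ≤ r) (rβ : |β| ≤ r) (rγ : |γ| ≤ r)
    (hw1 : |w1 - 568555554873 / 10 ^ 12| ≤ 1 / 10 ^ 9)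
    (hw2 : |w2 - 936230429434 / 10 ^ 12| ≤ 1 / 10 ^ 9)
    (hl1 : l1 = (-94441 / 10 ^ 5) * ξ + (-50167 / 10 ^ 5) * η + (-162680 / 10 ^ 5) * α + (306250 / 10 ^ 5) * β + (-166209 / 10 ^ 5) * γ)
    (hl2 : l2 = (57352 / 10 ^ 5) * ξ + (30466 / 10 ^ 5) * η + (98793 / 10 ^ 5) * α + (-185980 / 10 ^ 5) * β + (321762 / 10 ^ 5) * γ)
    (hl3 : l3 = (211809 / 10 ^ 5) * ξ + (-112513 / 10 ^ 5) * η + (-162680 / 10 ^ 5) * α + (-306250 / 10 ^ 5) * β + (166209 / 10 ^ 5) * γ)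
    (hl4 : l4 = (-128627 / 10 ^ 5) * ξ + (68327 / 10 ^ 5) * η + (98793 / 10 ^ 5) * α + (185980 / 10 ^ 5) * β + (-321762 / 10 ^ 5) * γ)
    (e1 : |L1 - l1| ≤ 5 / 10 ^ 5 * r) (e2 : |L2 - l2| ≤ 5 / 10 ^ 5 * r)
    (e3 : |L3 - l3| ≤ 5 / 10 ^ 5 * r) (e4 : |L4 - l4| ≤ 5 / 10 ^ 5 * r)
    (hq : w1 * Q1 + w2 * Q2 + w1 * Q3 + w2 * Q4 ≤ (121434 / 10 ^ 4) * (β ^ 2 - ξ * β)
      + (56230 / 10 ^ 4) * (α ^ 2 + η * α)
      + (177664 / 10 ^ 4) * γ ^ 2 - (52469 / 10 ^ 4) * (η * γ) + 1 / 10 ^ 2 * s)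
    (hc : (121434 / 10 ^ 4) * (β ^ 2 - ξ * β) + (56230 / 10 ^ 4) * (α ^ 2 + η * α)
      + (177664 / 10 ^ 4) * γ ^ 2 - (52469 / 10 ^ 4) * (η * γ)
      - 12 * l1 ^ 2 - 12 * l2 ^ 2 - 12 * l3 ^ 2 - 12 * l4 ^ 2
      ≤ -(65 / 100) * (ξ ^ 2 + η ^ 2 + α ^ 2 + β ^ 2 + γ ^ 2))
    (q1 : |Q1| ≤ 44 * s) (q2 : |Q2| ≤ 44 * s) (q3 : |Q3| ≤ 44 * s) (q4 : |Q4| ≤ 44 * s)
    (c1 : |C1| ≤ 40 * (2 / 10 ^ 5 * s)) (c2 : |C2| ≤ 40 * (2 / 10 ^ 5 * s))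
    (c3 : |C3| ≤ 40 * (2 / 10 ^ 5 * s)) (c4 : |C4| ≤ 40 * (2 / 10 ^ 5 * s))
    (hL : w1 * L1 + w2 * L2 + w1 * L3 + w2 * L4 = 0)
    (p1 : 0 < L1 + Q1 + C1) (p2 : 0 < L2 + Q2 + C2) (p3 : 0 < L3 + Q3 + C3)
    (p4 : 0 < L4 + Q4 + C4) : False := by
  have w1l : 1 / 2 ≤ w1 := by have := abs_le.1 hw1; linarith only [this.1]
  have w1u : w1 ≤ 95 / 100 := by have := abs_le.1 hw1; linarith only [this.2]
  have w2l : 1 / 2 ≤ w2 := by have := abs_le.1 hw2; linarith only [this.1]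
  have w2u : w2 ≤ 95 / 100 := by have := abs_le.1 hw2; linarith only [this.2]
  have a1 := lbd hl1 (by norm_num [abs_of_neg, abs_of_pos]) (by norm_num) hξ hη hα hβ hγ
  have a2 := lbd hl2 (by norm_num [abs_of_neg, abs_of_pos]) (by norm_num) hξ hη hα hβ hγ
  have a3 := lbd hl3 (by norm_num [abs_of_neg, abs_of_pos]) (by norm_num) hξ hη hα hβ hγ
  have a4 := lbd hl4 (by norm_num [abs_of_neg, abs_of_pos]) (by norm_num) hξ hη hα hβ hγ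
  have b1 := lbd hl1 (by norm_num [abs_of_neg, abs_of_pos]) hr0 rξ rη rα rβ rγ
  have b2 := lbd hl2 (by norm_num [abs_of_neg, abs_of_pos]) hr0 rξ rη rα rβ rγ
  have b3 := lbd hl3 (by norm_num [abs_of_neg, abs_of_pos]) hr0 rξ rη rα rβ rγ
  have b4 := lbd hl4 (by norm_num [abs_of_neg, abs_of_pos]) hr0 rξ rη rα rβ rγ
  have t1 := term hs0 hr2 w1l w1u a1 b1 e1 q1 c1 p1
  have t2 := term hs0 hr2 w2l w2u a2 b2 e2 q2 c2 p2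
  have t3 := term hs0 hr2 w1l w1u a3 b3 e3 q3 c3 p3
  have t4 := term hs0 hr2 w2l w2u a4 b4 e4 q4 c4 p4
  rw [← hs] at hc
  linarith only [t1, t2, t3, t4, hq, hc, hL, hs0]

theorem core {f P1 P3 E F a1 a2 a3 b1 b2 b3 w1 w2 ξ η α β γ : ℝ}
    (h : Enc f P1 P3 E F a1 a2 a3 b1 b2 b3 w1 w2) (hz : w1 * a3 = w2 * b3)
    (hξ : |ξ| ≤ 2 / 10 ^ 5) (hη : |η| ≤ 2 / 10 ^ 5) (hα : |α| ≤ 2 / 10 ^ 5)
    (hβ : |β| ≤ 2 / 10 ^ 5) (hγ : |γ| ≤ 2 / 10 ^ 5)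
    (hL : w1 * Lf ξ η α β γ P1 0 P3 (-E) f F a1 a2 (-a3)
      + w2 * Lf ξ η α β γ P1 0 P3 (-E) f F b1 b2 b3
      + w1 * Lf ξ η α β γ P1 0 P3 E f (-F) a1 (-a2) a3
      + w2 * Lf ξ η α β γ P1 0 P3 E f (-F) b1 (-b2) (-b3) = 0)
    (p1 : 0 < Lf ξ η α β γ P1 0 P3 (-E) f F a1 a2 (-a3)
      + Qf ξ η α β γ P1 0 (-E) f F a1 a2 (-a3)
      + Cf ξ η α β γ P1 0 P3 (-E) f F a1 a2 (-a3))
    (p2 : 0 < Lf ξ η α β γ P1 0 P3 (-E) f F b1 b2 b3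
      + Qf ξ η α β γ P1 0 (-E) f F b1 b2 b3
      + Cf ξ η α β γ P1 0 P3 (-E) f F b1 b2 b3)
    (p3 : 0 < Lf ξ η α β γ P1 0 P3 E f (-F) a1 (-a2) a3
      + Qf ξ η α β γ P1 0 E f (-F) a1 (-a2) a3
      + Cf ξ η α β γ P1 0 P3 E f (-F) a1 (-a2) a3)
    (p4 : 0 < Lf ξ η α β γ P1 0 P3 E f (-F) b1 (-b2) (-b3)
      + Qf ξ η α β γ P1 0 E f (-F) b1 (-b2) (-b3)
      + Cf ξ η α β γ P1 0 P3 E f (-F) b1 (-b2) (-b3)) : False := by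
  obtain ⟨s, hs⟩ : ∃ s, s = ξ^2 + η^2 + α^2 + β^2 + γ^2 := ⟨_, rfl⟩
  have hs0 : 0 ≤ s := by rw [hs]; positivity
  obtain ⟨r, hr⟩ : ∃ r, r = Real.sqrt s := ⟨_, rfl⟩
  have hr2 : r ^ 2 = s := by rw [hr]; exact Real.sq_sqrt hs0
  have hr0 : 0 ≤ r := by rw [hr]; exact Real.sqrt_nonneg _
  have rξ : |ξ| ≤ r := abs_le_of_sq_le_sq (by nlinarith only [hs, hr2, sq_nonneg ξ, sq_nonneg η, sq_nonneg α, sq_nonneg β, sq_nonneg γ]) hr0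
  have rη : |η| ≤ r := abs_le_of_sq_le_sq (by nlinarith only [hs, hr2, sq_nonneg ξ, sq_nonneg η, sq_nonneg α, sq_nonneg β, sq_nonneg γ]) hr0
  have rα : |α| ≤ r := abs_le_of_sq_le_sq (by nlinarith only [hs, hr2, sq_nonneg ξ, sq_nonneg η, sq_nonneg α, sq_nonneg β, sq_nonneg γ]) hr0
  have rβ : |β| ≤ r := abs_le_of_sq_le_sq (by nlinarith only [hs, hr2, sq_nonneg ξ, sq_nonneg η, sq_nonneg α, sq_nonneg β, sq_nonneg γ]) hr0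
  have rγ : |γ| ≤ r := abs_le_of_sq_le_sq (by nlinarith only [hs, hr2, sq_nonneg ξ, sq_nonneg η, sq_nonneg α, sq_nonneg β, sq_nonneg γ]) hr0
  have e1 := lin1 h rξ rη rα rβ rγ
  obtain ⟨l1, hl1⟩ : ∃ l, l = (-94441 / 10 ^ 5) * ξ + (-50167 / 10 ^ 5) * η + (-162680 / 10 ^ 5) * α + (306250 / 10 ^ 5) * β + (-166209 / 10 ^ 5) * γ := ⟨_, rfl⟩
  rw [← hl1] at e1
  have e2 := lin2 h rξ rη rα rβ rγ
  obtain ⟨l2, hl2⟩ : ∃ l, l = (57352 / 10 ^ 5) * ξ + (30466 / 10 ^ 5) * η + (98793 / 10 ^ 5) * α + (-185980 / 10 ^ 5) * β + (321762 / 10 ^ 5) * γ := ⟨_, rfl⟩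
  rw [← hl2] at e2
  have e3 := lin3 h rξ rη rα rβ rγ
  obtain ⟨l3, hl3⟩ : ∃ l, l = (211809 / 10 ^ 5) * ξ + (-112513 / 10 ^ 5) * η + (-162680 / 10 ^ 5) * α + (-306250 / 10 ^ 5) * β + (166209 / 10 ^ 5) * γ := ⟨_, rfl⟩
  rw [← hl3] at e3
  have e4 := lin4 h rξ rη rα rβ rγ
  obtain ⟨l4, hl4⟩ : ∃ l, l = (-128627 / 10 ^ 5) * ξ + (68327 / 10 ^ 5) * η + (98793 / 10 ^ 5) * α + (185980 / 10 ^ 5) * β + (-321762 / 10 ^ 5) * γ := ⟨_, rfl⟩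
  rw [← hl4] at e4
  have hq := quad h hz hs
  have hc := core_num ξ η α β γ
  rw [← hl1] at hc
  rw [← hl2] at hc
  rw [← hl3] at hc
  rw [← hl4] at hc
  obtain ⟨hf, hP1, hP3, hE, hF, ha1, ha2, ha3, hb1, hb2, hb3, hw1, hw2⟩ := h
  have z0 : |(0 : ℝ)| ≤ 2 := by norm_num
  have vP1 : |P1| ≤ 2 := by rw [abs_le] at hP1 ⊢; constructor <;> linarith only [hP1.1, hP1.2]
  have vP3 : |P3| ≤ 2 := by rw [abs_le] at hP3 ⊢; constructor <;> linarith only [hP3.1, hP3.2]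
  have vf : |f| ≤ 2 := by rw [abs_le] at hf ⊢; constructor <;> linarith only [hf.1, hf.2]
  have va1 : |a1| ≤ 2 := by rw [abs_le] at ha1 ⊢; constructor <;> linarith only [ha1.1, ha1.2]
  have va2 : |a2| ≤ 2 := by rw [abs_le] at ha2 ⊢; constructor <;> linarith only [ha2.1, ha2.2]
  have va3 : |a3| ≤ 2 := by rw [abs_le] at ha3 ⊢; constructor <;> linarith only [ha3.1, ha3.2]
  have vb1 : |b1| ≤ 2 := by rw [abs_le] at hb1 ⊢; constructor <;> linarith only [hb1.1, hb1.2]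
  have vb2 : |b2| ≤ 2 := by rw [abs_le] at hb2 ⊢; constructor <;> linarith only [hb2.1, hb2.2]
  have vb3 : |b3| ≤ 2 := by rw [abs_le] at hb3 ⊢; constructor <;> linarith only [hb3.1, hb3.2]
  have vE : |E| ≤ 1 := by rw [abs_le] at hE ⊢; constructor <;> linarith only [hE.1, hE.2]
  have vF : |F| ≤ 1 := by rw [abs_le] at hF ⊢; constructor <;> linarith only [hF.1, hF.2]
  have nE : |-E| ≤ 1 := by rw [abs_neg]; exact vE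
  have nF : |-F| ≤ 1 := by rw [abs_neg]; exact vF
  have na2 : |-a2| ≤ 2 := by rw [abs_neg]; exact va2
  have na3 : |-a3| ≤ 2 := by rw [abs_neg]; exact va3
  have nb2 : |-b2| ≤ 2 := by rw [abs_neg]; exact vb2
  have nb3 : |-b3| ≤ 2 := by rw [abs_neg]; exact vb3
  have q1 := Qbd (P1 := P1) (P2 := 0) hs vP1 z0 nE vf vF va1 va2 na3
  have cc1 := Cbd (P1 := P1) (P2 := 0) (P3 := P3) hs hξ hη vP1 z0 vP3 nE vf vF va1 va2 na3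
  have q2 := Qbd (P1 := P1) (P2 := 0) hs vP1 z0 nE vf vF vb1 vb2 vb3
  have cc2 := Cbd (P1 := P1) (P2 := 0) (P3 := P3) hs hξ hη vP1 z0 vP3 nE vf vF vb1 vb2 vb3
  have q3 := Qbd (P1 := P1) (P2 := 0) hs vP1 z0 vE vf nF va1 na2 va3
  have cc3 := Cbd (P1 := P1) (P2 := 0) (P3 := P3) hs hξ hη vP1 z0 vP3 vE vf nF va1 na2 va3
  have q4 := Qbd (P1 := P1) (P2 := 0) hs vP1 z0 vE vf nF vb1 nb2 nb3
  have cc4 := Cbd (P1 := P1) (P2 := 0) (P3 := P3) hs hξ hη vP1 z0 vP3 vE vf nF vb1 nb2 nb3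
  generalize Lf ξ η α β γ P1 0 P3 (-E) f F a1 a2 (-a3) = L1 at *
  generalize Qf ξ η α β γ P1 0 (-E) f F a1 a2 (-a3) = Q1 at *
  generalize Cf ξ η α β γ P1 0 P3 (-E) f F a1 a2 (-a3) = C1 at *
  generalize Lf ξ η α β γ P1 0 P3 (-E) f F b1 b2 b3 = L2 at *
  generalize Qf ξ η α β γ P1 0 (-E) f F b1 b2 b3 = Q2 at *
  generalize Cf ξ η α β γ P1 0 P3 (-E) f F b1 b2 b3 = C2 at *
  generalize Lf ξ η α β γ P1 0 P3 E f (-F) a1 (-a2) a3 = L3 at *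
  generalize Qf ξ η α β γ P1 0 E f (-F) a1 (-a2) a3 = Q3 at *
  generalize Cf ξ η α β γ P1 0 P3 E f (-F) a1 (-a2) a3 = C3 at *
  generalize Lf ξ η α β γ P1 0 P3 E f (-F) b1 (-b2) (-b3) = L4 at *
  generalize Qf ξ η α β γ P1 0 E f (-F) b1 (-b2) (-b3) = Q4 at *
  generalize Cf ξ η α β γ P1 0 P3 E f (-F) b1 (-b2) (-b3) = C4 at *
  exact final hs hs0 hr2 hr0 hξ hη hα hβ hγ rξ rη rα rβ rγ hw1 hw2 hl1 hl2 hl3 hl4 e1 e2 e3 e4 hq hc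
    q1 q2 q3 q4 cc1 cc2 cc3 cc4 hL p1 p2 p3 p4

end Pool.Agent.W2helper1.NW
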